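import Pool.Agent.W84.T.Defs
import Pool.Agent.W681.EC.FIN1

/-! T8-WT: correlations with continuous ratio weights. -/

set_option autoImplicit false

namespace Pool.Agent.W412.T8

open Finset Filter
open Pool.Agent.H376R2.MR
open Pool.Agent.W78.GA
open Pool.Agent.W78.EC
open Pool.Agent.W84.T
open Pool.Agent.W681.EC (abs_lam cnt_sum sum_inv_le sum_inv_sq_le tail_le mem_SP abs_D)

theorem tele (a b : ℕ) (hab : a ≤ b) :
    ∑ X ∈ Ico a b, (1 / (X : ℝ) - 1 / ((X : ℝ) + 1)) = 1 / (a : ℝ) - 1 / (b : ℝ) := by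
  induction b, hab using Nat.le_induction with
  | base => simp
  | succ n hn ih =>
    rw [Finset.sum_Ico_succ_top hn, ih]
    push_cast
    ring

theorem ceil_inv (u : ℝ) (hu : 1 ≤ u) : |1 / ((⌈u⌉₊ : ℕ) : ℝ) - 1 / u| ≤ 1 / u ^ 2 := by
  have hu0 : 0 < u := by linarith
  have h1 : u ≤ (⌈u⌉₊ : ℝ) := Nat.le_ceil u
  have h2 : (⌈u⌉₊ : ℝ) < u + 1 := Nat.ceil_lt_add_one hu0.le
  have h3 : (0 : ℝ) < (⌈u⌉₊ : ℝ) := lt_of_lt_of_le hu0 h1
  set a : ℝ := (⌈u⌉₊ : ℝ)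
  have e : 1 / a - 1 / u = -((a - u) / (a * u)) := by
    field_simp
    ring
  rw [e, abs_neg, abs_of_nonneg (div_nonneg (by linarith) (by positivity))]
  rw [div_le_div_iff₀ (by positivity) (by positivity)]
  have h4 : (a - u) * u ^ 2 ≤ 1 * u ^ 2 := by
    apply mul_le_mul_of_nonneg_right (by linarith) (by positivity)
  nlinarith

theorem win_eq (u v : ℝ) (N : ℕ) (hu : 1 ≤ u) (hv : v ≤ N) :
    (Icc 1 N).filter (fun X : ℕ => u ≤ (X : ℝ) ∧ (X : ℝ) < v) = Ico ⌈u⌉₊ ⌈v⌉₊ := by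
  ext X
  rw [mem_filter, mem_Icc, mem_Ico, Nat.ceil_le, Nat.lt_ceil]
  constructor
  · rintro ⟨_, h2, h3⟩
    exact ⟨h2, h3⟩
  · rintro ⟨h2, h3⟩
    refine ⟨⟨?_, ?_⟩, h2, h3⟩
    · have : (1 : ℝ) ≤ X := by linarith
      exact_mod_cast this
    · have : (X : ℝ) ≤ N := by linarith
      exact_mod_cast this

theorem win_le (u v : ℝ) (N : ℕ) (hu : 0 < u) :
    ∑ X ∈ (Icc 1 N).filter (fun X : ℕ => u ≤ (X : ℝ) ∧ (X : ℝ) < v), 1 / (X : ℝ) ^ 2 ≤ 2 / u := by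
  refine le_trans ?_ (tail_le N u hu)
  apply sum_le_sum_of_subset_of_nonneg
  · intro X hX
    rw [mem_filter] at hX ⊢
    exact ⟨hX.1, hX.2.1⟩
  · intro X _ _
    positivity

theorem win (u v : ℝ) (N : ℕ) (hu : 1 ≤ u) (huv : u ≤ v) (hv : v ≤ N) :
    |∑ X ∈ (Icc 1 N).filter (fun X : ℕ => u ≤ (X : ℝ) ∧ (X : ℝ) < v), 1 / (X : ℝ) ^ 2 -
      (1 / u - 1 / v)| ≤ 4 / u ^ 2 := by
  have hu0 : 0 < u := by linarith
  have h2 : ⌈u⌉₊ ≤ ⌈v⌉₊ := Nat.ceil_le_ceil huv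
  have h3 := tele ⌈u⌉₊ ⌈v⌉₊ h2
  have h4 : |∑ X ∈ Ico ⌈u⌉₊ ⌈v⌉₊, 1 / (X : ℝ) ^ 2 -
      ∑ X ∈ Ico ⌈u⌉₊ ⌈v⌉₊, (1 / (X : ℝ) - 1 / ((X : ℝ) + 1))| ≤ 1 / u * (2 / u) := by
    rw [← Finset.sum_sub_distrib]
    refine le_trans (Finset.abs_sum_le_sum_abs _ _) ?_
    have h5 := win_le u v N hu0
    rw [win_eq u v N hu hv] at h5
    refine le_trans ?_ (mul_le_mul_of_nonneg_left h5 (by positivity))
    rw [Finset.mul_sum]
    apply Finset.sum_le_sum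
    intro X hX
    rw [mem_Ico, Nat.ceil_le] at hX
    have hX0 : 0 < (X : ℝ) := lt_of_lt_of_le hu0 hX.1
    have e : 1 / (X : ℝ) ^ 2 - (1 / (X : ℝ) - 1 / ((X : ℝ) + 1)) =
        1 / ((X : ℝ) + 1) * (1 / (X : ℝ) ^ 2) := by
      field_simp
      ring
    rw [e, abs_of_nonneg (by positivity)]
    apply mul_le_mul_of_nonneg_right _ (by positivity)
    exact one_div_le_one_div_of_le hu0 (by linarith [hX.1])
  rw [win_eq u v N hu hv]
  have h6 := ceil_inv u hu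
  have h7 := ceil_inv v (by linarith)
  have h8 : 1 / v ^ 2 ≤ 1 / u ^ 2 := one_div_le_one_div_of_le (by positivity) (by nlinarith)
  rw [h3] at h4
  have e1 : 1 / u * (2 / u) = 2 * (1 / u ^ 2) := by
    field_simp
  have e2 : 4 / u ^ 2 = 4 * (1 / u ^ 2) := by ring
  rw [e1] at h4
  rw [e2]
  rw [abs_le] at *
  constructor <;> linarith [h4.1, h4.2, h6.1, h6.2, h7.1, h7.2]

/-- the index of a window -/
theorem idx (θ : ℝ) (K : ℕ) (y : ℝ) (hy1 : 1 < y) (hyK : y ≤ θ ^ K) :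
    ∃ k, k < K ∧ θ ^ k < y ∧ y ≤ θ ^ (k + 1) := by
  classical
  have hex : ∃ k, y ≤ θ ^ k := ⟨K, hyK⟩
  have h1 := Nat.find_spec hex
  have h2 : Nat.find hex ≠ 0 := by
    intro h
    rw [h, pow_zero] at h1
    linarith
  obtain ⟨k, hk⟩ := Nat.exists_eq_succ_of_ne_zero h2
  have h3 : Nat.find hex ≤ K := Nat.find_min' hex hyK
  refine ⟨k, by omega, ?_, ?_⟩
  · have := Nat.find_min hex (m := k) (by omega)
    exact not_le.1 this
  · rw [hk] at h1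
    exact h1

open scoped Classical in
/-- the general form of CORR for windows -/
theorem AA_gen (h2 : S_CORR) (j : ℕ) (s₁ s₂ s₃ s₄ : ℝ) (hs2 : s₂ ≤ 1) (hs4 : s₄ ≤ 1) (X N : ℕ)
    (hX : 1 ≤ X) (hXN : X ≤ N) :
    AA j s₁ s₂ s₃ s₄ X = 4 * ∑ p ∈ (SP N).filter (fun p => p ≠ (1, 1)),
      (lam p.1 : ℝ) ^ j * lam p.2 * (if (s₁ * X < p.1 ∧ (p.1 : ℝ) ≤ s₂ * X) ∧
        (s₃ * X < p.2 ∧ (p.2 : ℝ) ≤ s₄ * X) then 1 else 0) := by
  have hXp : (0 : ℝ) ≤ X := Nat.cast_nonneg X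
  have h := h2 X (fun a b => (lam a : ℝ) ^ j * lam b * (if (s₁ * X < a ∧ (a : ℝ) ≤ s₂ * X) ∧
        (s₃ * X < b ∧ (b : ℝ) ≤ s₄ * X) then 1 else 0))
    (by exact_mod_cast hX)
  rw [Nat.floor_natCast] at h
  have e1 : (SP X).filter (fun p => p ≠ (1, 1)) =
      ((SP N).filter (fun p => p ≠ (1, 1))).filter (fun p => p.1 ≤ X ∧ p.2 ≤ X) := by
    ext p
    simp only [mem_filter, mem_SP]
    constructor
    · rintro ⟨⟨⟨⟨h3, h4⟩, ⟨h5, h6⟩⟩, h7⟩, h8⟩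
      exact ⟨⟨⟨⟨⟨h3, h4.trans hXN⟩, ⟨h5, h6.trans hXN⟩⟩, h7⟩, h8⟩, h4, h6⟩
    · rintro ⟨⟨⟨⟨⟨h3, h4⟩, ⟨h5, h6⟩⟩, h7⟩, h8⟩, h9, h10⟩
      exact ⟨⟨⟨⟨h3, h9⟩, ⟨h5, h10⟩⟩, h7⟩, h8⟩
  have e2 : ∑ p ∈ (SP X).filter (fun p => p ≠ (1, 1)),
      (lam p.1 : ℝ) ^ j * lam p.2 * (if (s₁ * X < p.1 ∧ (p.1 : ℝ) ≤ s₂ * X) ∧
        (s₃ * X < p.2 ∧ (p.2 : ℝ) ≤ s₄ * X) then 1 else 0) =
      ∑ p ∈ (SP N).filter (fun p => p ≠ (1, 1)),
      (lam p.1 : ℝ) ^ j * lam p.2 * (if (s₁ * X < p.1 ∧ (p.1 : ℝ) ≤ s₂ * X) ∧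
        (s₃ * X < p.2 ∧ (p.2 : ℝ) ≤ s₄ * X) then 1 else 0) := by
    rw [e1]
    apply Finset.sum_filter_of_ne
    intro p _ hne
    by_cases c : (s₁ * X < p.1 ∧ (p.1 : ℝ) ≤ s₂ * X) ∧ (s₃ * X < p.2 ∧ (p.2 : ℝ) ≤ s₄ * X)
    · constructor
      · have : (p.1 : ℝ) ≤ X := le_trans c.1.2 (by nlinarith)
        exact_mod_cast this
      · have : (p.2 : ℝ) ≤ X := le_trans c.2.2 (by nlinarith)
        exact_mod_cast this
    · rw [if_neg c, mul_zero] at hne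
      exact absurd rfl hne
  rw [← e2, ← h]
  unfold AA
  simp only [Finset.sum_filter]
  apply sum_congr rfl
  intro e _
  by_cases c1 : 0 < ip e.1 e.2
  · by_cases c2 : (s₁ * X < (nm e.1 : ℝ) ∧ (nm e.1 : ℝ) ≤ s₂ * X) ∧
        (s₃ * X < (nm e.2 : ℝ) ∧ (nm e.2 : ℝ) ≤ s₄ * X)
    · rw [if_pos ⟨c1, c2.1.1, c2.1.2, c2.2.1, c2.2.2⟩, if_pos c1, if_pos c2, mul_one]
      rfl
    · rw [if_neg (fun h3 => c2 ⟨⟨h3.2.1, h3.2.2.1⟩, h3.2.2.2.1, h3.2.2.2.2⟩), if_pos c1, if_neg c2,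
        mul_zero]
  · rw [if_neg (fun h3 => c1 h3.1), if_neg c1]

/-- pointwise approximation -/
theorem pt (A θ : ℝ) (K : ℕ) (hθ : 1 < θ) (hθ2 : θ ≤ 2) (hK : A ^ 2 * θ ≤ θ ^ K)
    (φ : ℝ → ℝ) (hφ : Rt A φ) (η : ℝ) (hη : 0 ≤ η)
    (hu : ∀ x y : ℝ, 0 ≤ x → x ≤ 2 * A → 0 ≤ y → y ≤ 2 * A → |x - y| ≤ (θ - 1) * (2 * A) →
      |φ x - φ y| ≤ η) (a b X : ℕ) (ha : 1 ≤ a) (hb : 1 ≤ b) (hX : 1 ≤ X) :
    |∑ k ∈ range K, φ (θ ^ k / A) *
        (if (A * (θ ^ K)⁻¹ * X < a ∧ (a : ℝ) ≤ A * (θ ^ K)⁻¹ * θ * X) ∧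
          ((θ ^ K)⁻¹ * θ ^ k * X < b ∧ (b : ℝ) ≤ (θ ^ K)⁻¹ * θ ^ (k + 1) * X) then 1 else 0) -
      φ ((b : ℝ) / a) * (if A * (θ ^ K)⁻¹ * X < a ∧ (a : ℝ) ≤ A * (θ ^ K)⁻¹ * θ * X then 1 else 0)|
      ≤ η * (if (A * (θ ^ K)⁻¹ * X < a ∧ (a : ℝ) ≤ A * (θ ^ K)⁻¹ * θ * X) ∧
        (1 / (2 * A) ≤ (b : ℝ) / a ∧ (b : ℝ) / a ≤ 2 * A) then 1 else 0) := by
  have hA := hφ.one_lt
  have hA0 : 0 < A := by linarith
  have hθ0 : 0 < θ := by linarith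
  have ha0 : (0 : ℝ) < a := by exact_mod_cast ha
  have hb0 : (0 : ℝ) < b := by exact_mod_cast hb
  have hX0 : (0 : ℝ) < X := by exact_mod_cast hX
  set s₀ : ℝ := (θ ^ K)⁻¹ with hs₀
  have hs0 : 0 < s₀ := by positivity
  have hsK : s₀ * θ ^ K = 1 := inv_mul_cancel₀ (by positivity)
  have hrhs : 0 ≤ η * (if (A * s₀ * X < a ∧ (a : ℝ) ≤ A * s₀ * θ * X) ∧
        (1 / (2 * A) ≤ (b : ℝ) / a ∧ (b : ℝ) / a ≤ 2 * A) then 1 else 0) := by
    apply mul_nonneg hη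
    split_ifs <;> norm_num
  by_cases c : A * s₀ * X < a ∧ (a : ℝ) ≤ A * s₀ * θ * X
  swap
  · have e1 : ∑ k ∈ range K, φ (θ ^ k / A) *
        (if (A * s₀ * X < a ∧ (a : ℝ) ≤ A * s₀ * θ * X) ∧
          (s₀ * θ ^ k * X < b ∧ (b : ℝ) ≤ s₀ * θ ^ (k + 1) * X) then (1 : ℝ) else 0) = 0 := by
      apply Finset.sum_eq_zero
      intro k _
      rw [if_neg (fun h => c h.1), mul_zero]
    rw [e1, if_neg c, mul_zero, sub_zero, abs_zero]
    exact hrhs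
  obtain ⟨c1, c2⟩ := c
  set r : ℝ := (b : ℝ) / a with hr
  have hrpos : 0 < r := by positivity
  have hbr : (b : ℝ) = r * a := by rw [hr]; field_simp
  by_cases hk : ∃ k, k < K ∧ s₀ * θ ^ k * X < b ∧ (b : ℝ) ≤ s₀ * θ ^ (k + 1) * X
  · obtain ⟨k, hkK, k1, k2⟩ := hk
    have e1 : ∑ k ∈ range K, φ (θ ^ k / A) *
        (if (A * s₀ * X < a ∧ (a : ℝ) ≤ A * s₀ * θ * X) ∧
          (s₀ * θ ^ k * X < b ∧ (b : ℝ) ≤ s₀ * θ ^ (k + 1) * X) then (1 : ℝ) else 0) =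
        φ (θ ^ k / A) := by
      rw [Finset.sum_eq_single k]
      · rw [if_pos ⟨⟨c1, c2⟩, k1, k2⟩, mul_one]
      · intro l _ hlk
        rw [if_neg, mul_zero]
        rintro ⟨_, l1, l2⟩
        rcases lt_or_gt_of_ne hlk with h | h
        · have h5 : θ ^ (l + 1) ≤ θ ^ k := pow_le_pow_right₀ hθ.le (by omega)
          have h6 : s₀ * θ ^ (l + 1) * X ≤ s₀ * θ ^ k * X := by
            apply mul_le_mul_of_nonneg_right _ hX0.le
            exact mul_le_mul_of_nonneg_left h5 hs0.le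
          linarith
        · have h5 : θ ^ (k + 1) ≤ θ ^ l := pow_le_pow_right₀ hθ.le (by omega)
          have h6 : s₀ * θ ^ (k + 1) * X ≤ s₀ * θ ^ l * X := by
            apply mul_le_mul_of_nonneg_right _ hX0.le
            exact mul_le_mul_of_nonneg_left h5 hs0.le
          linarith
      · intro h
        exact absurd (mem_range.2 hkK) h
    rw [e1, if_pos ⟨c1, c2⟩, mul_one]
    set ck : ℝ := θ ^ k / A with hck
    have hckpos : 0 < ck := by positivity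
    have hckA : θ ^ k = ck * A := by rw [hck]; field_simp
    have r1 : r < ck * θ := by
      have h5 : r * a < ck * θ * a := by
        calc r * a = b := hbr.symm
          _ ≤ s₀ * θ ^ (k + 1) * X := k2
          _ = ck * θ * (A * s₀ * X) := by rw [pow_succ, hckA]; ring
          _ < ck * θ * a := mul_lt_mul_of_pos_left c1 (by positivity)
      exact lt_of_mul_lt_mul_right h5 ha0.le
    have r2 : ck < r * θ := by
      have h5 : ck * a < r * θ * a := by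
        calc ck * a ≤ ck * (A * s₀ * θ * X) := mul_le_mul_of_nonneg_left c2 hckpos.le
          _ = θ * (s₀ * θ ^ k * X) := by rw [hckA]; ring
          _ < θ * b := mul_lt_mul_of_pos_left k1 hθ0
          _ = r * θ * a := by rw [hbr]; ring
      exact lt_of_mul_lt_mul_right h5 ha0.le
    by_cases hz : φ ck = 0 ∧ φ r = 0
    · rw [hz.1, hz.2, sub_zero, abs_zero]
      exact hrhs
    · have hcase : (1 / A ≤ ck ∧ ck ≤ A) ∨ (1 / A ≤ r ∧ r ≤ A) := by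
        by_cases h0 : φ ck = 0
        · right
          exact hφ.supp r (fun h => hz ⟨h0, h⟩)
        · left
          exact hφ.supp ck h0
      have hall : ck ≤ 2 * A ∧ r ≤ 2 * A ∧ |ck - r| ≤ (θ - 1) * (2 * A) ∧ 1 / (2 * A) ≤ r := by
        have hhalf : 1 / (2 * A) = 1 / A / 2 := by
          field_simp
        have q0 : ck ≤ 2 * A ∧ r ≤ 2 * A ∧ 1 / (2 * A) ≤ r := by
          rcases hcase with ⟨g1, g2⟩ | ⟨g1, g2⟩
          · refine ⟨by linarith, ?_, ?_⟩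
            · have : ck * θ ≤ A * 2 := mul_le_mul g2 hθ2 hθ0.le hA0.le
              linarith
            · rw [hhalf]
              have : r * θ ≤ r * 2 := mul_le_mul_of_nonneg_left hθ2 hrpos.le
              linarith
          · refine ⟨?_, by linarith, ?_⟩
            · have : r * θ ≤ A * 2 := mul_le_mul g2 hθ2 hθ0.le hA0.le
              linarith
            · rw [hhalf]
              have : 0 < 1 / A := by positivity
              linarith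
        refine ⟨q0.1, q0.2.1, ?_, q0.2.2⟩
        have q1 : (θ - 1) * r ≤ (θ - 1) * (2 * A) :=
          mul_le_mul_of_nonneg_left q0.2.1 (by linarith)
        have q2 : (θ - 1) * ck ≤ (θ - 1) * (2 * A) :=
          mul_le_mul_of_nonneg_left q0.1 (by linarith)
        rw [abs_le]
        constructor <;> linarith
      rw [if_pos ⟨⟨c1, c2⟩, hall.2.2.2, hall.2.1⟩, mul_one]
      exact hu ck r hckpos.le hall.1 hrpos.le hall.2.1 hall.2.2.1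
  · have e1 : ∑ k ∈ range K, φ (θ ^ k / A) *
        (if (A * s₀ * X < a ∧ (a : ℝ) ≤ A * s₀ * θ * X) ∧
          (s₀ * θ ^ k * X < b ∧ (b : ℝ) ≤ s₀ * θ ^ (k + 1) * X) then (1 : ℝ) else 0) = 0 := by
      apply Finset.sum_eq_zero
      intro k hkk
      rw [if_neg, mul_zero]
      rintro ⟨_, h5⟩
      exact hk ⟨k, mem_range.1 hkk, h5⟩
    have e2 : φ r = 0 := by
      by_contra h0
      obtain ⟨g1, g2⟩ := hφ.supp r h0
      apply hk
      have y1 : 1 < (b : ℝ) / (s₀ * X) := by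
        rw [one_lt_div (by positivity), hbr]
        have h5 : 1 / A * a ≤ r * a := mul_le_mul_of_nonneg_right g1 ha0.le
        have h6 : 1 / A * (A * s₀ * X) < 1 / A * a := mul_lt_mul_of_pos_left c1 (by positivity)
        have h7 : 1 / A * (A * s₀ * X) = s₀ * X := by field_simp
        linarith
      have y2 : (b : ℝ) / (s₀ * X) ≤ θ ^ K := by
        rw [div_le_iff₀ (by positivity), hbr]
        have h5 : r * a ≤ A * (A * s₀ * θ * X) :=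
          mul_le_mul g2 c2 ha0.le hA0.le
        have h6 : A * (A * s₀ * θ * X) = (A ^ 2 * θ) * (s₀ * X) := by ring
        have h7 : (A ^ 2 * θ) * (s₀ * X) ≤ θ ^ K * (s₀ * X) :=
          mul_le_mul_of_nonneg_right hK (by positivity)
        linarith
      obtain ⟨k, h5, h6, h7⟩ := idx θ K _ y1 y2
      rw [lt_div_iff₀ (by positivity)] at h6
      rw [div_le_iff₀ (by positivity)] at h7
      exact ⟨k, h5, by linarith, by linarith⟩
    rw [e1, e2, zero_mul, sub_zero, abs_zero]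
    exact hrhs

open scoped Classical in
/-- the pairs with bounded ratio -/
theorem cnt_ratio (C : ℝ) (hC : ∀ m M : ℕ, 1 ≤ m → m ≤ M →
    ((((Icc 1 m) ×ˢ (Icc 1 M)).filter (fun p => ∃ n : ℕ, p.1 * p.2 = n ^ 2 + 1)).card : ℝ) ≤
    C * Real.sqrt (m * M)) (hC0 : 0 ≤ C) (B : ℝ) (hB : 1 ≤ B) (N X : ℕ) (hX : 1 ≤ X) :
    ((((SP N).filter (fun p => 1 / B ≤ (p.2 : ℝ) / p.1 ∧ (p.2 : ℝ) / p.1 ≤ B)).filter
      (fun p => p.1 ≤ X)).card : ℝ) ≤ C * Real.sqrt B * X := by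
  have hXp : (0 : ℝ) < X := by exact_mod_cast hX
  have hXM : X ≤ ⌊B * X⌋₊ := Nat.le_floor (by nlinarith)
  have h := hC X ⌊B * X⌋₊ hX hXM
  have h1 : ((SP N).filter (fun p => 1 / B ≤ (p.2 : ℝ) / p.1 ∧ (p.2 : ℝ) / p.1 ≤ B)).filter
      (fun p => p.1 ≤ X) ⊆
      ((Icc 1 X) ×ˢ (Icc 1 ⌊B * X⌋₊)).filter (fun p => ∃ n : ℕ, p.1 * p.2 = n ^ 2 + 1) := by
    intro p hp
    rw [mem_filter, mem_filter, mem_SP] at hp
    obtain ⟨⟨⟨⟨⟨h1, h2⟩, ⟨h3, h4⟩⟩, h5⟩, _, h6⟩, h7⟩ := hp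
    rw [mem_filter, mem_product, mem_Icc, mem_Icc]
    refine ⟨⟨⟨h1, h7⟩, ⟨h3, ?_⟩⟩, h5⟩
    apply Nat.le_floor
    have hp1 : (0 : ℝ) < p.1 := by exact_mod_cast h1
    rw [div_le_iff₀ hp1] at h6
    have h8 : (p.1 : ℝ) ≤ X := by exact_mod_cast h7
    nlinarith
  have h2 : (((((SP N).filter (fun p => 1 / B ≤ (p.2 : ℝ) / p.1 ∧ (p.2 : ℝ) / p.1 ≤ B)).filter
      (fun p => p.1 ≤ X)).card : ℕ) : ℝ) ≤ _ := Nat.cast_le.2 (card_le_card h1)
  refine le_trans h2 (le_trans h ?_)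
  have h3 : Real.sqrt ((X : ℝ) * (⌊B * X⌋₊ : ℝ)) ≤ Real.sqrt B * X := by
    have h4 : (⌊B * X⌋₊ : ℝ) ≤ B * X := Nat.floor_le (by positivity)
    calc _ ≤ Real.sqrt (B * ((X : ℝ) * X)) := Real.sqrt_le_sqrt (by nlinarith)
      _ = Real.sqrt B * X := by
        rw [Real.sqrt_mul (by linarith), Real.sqrt_mul_self hXp.le]
  calc C * Real.sqrt (X * (⌊B * X⌋₊ : ℝ)) ≤ C * (Real.sqrt B * X) :=
        mul_le_mul_of_nonneg_left h3 hC0
    _ = _ := by ring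

/-- the weight of one pair -/
theorem w_bound (s θ : ℝ) (hs : 0 < s) (hθ : 1 < θ) (hsθ : s * θ ≤ 1) (a N : ℕ) (ha : 1 ≤ a)
    (hN : 1 ≤ N) :
    |(∑ X ∈ Icc 1 N, 1 / (X : ℝ) ^ 2 * (if s * X < a ∧ (a : ℝ) ≤ s * θ * X then 1 else 0)) -
      s * (θ - 1) * (1 / (a : ℝ))| ≤ 4 * (1 / (a : ℝ) ^ 2) + 3 / s * (1 / (N : ℝ)) := by
  have ha0 : (0 : ℝ) < a := by exact_mod_cast ha
  have ha1 : (1 : ℝ) ≤ a := by exact_mod_cast ha
  have hN0 : (0 : ℝ) < N := by exact_mod_cast hN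
  have hθ0 : 0 < θ := by linarith
  have hsθ0 : 0 < s * θ := by positivity
  set u : ℝ := a / (s * θ) with hu
  set v : ℝ := a / s with hv
  have e1 : (∑ X ∈ Icc 1 N, 1 / (X : ℝ) ^ 2 * (if s * X < a ∧ (a : ℝ) ≤ s * θ * X then 1 else 0)) =
      ∑ X ∈ (Icc 1 N).filter (fun X : ℕ => u ≤ (X : ℝ) ∧ (X : ℝ) < v), 1 / (X : ℝ) ^ 2 := by
    rw [Finset.sum_filter]
    apply Finset.sum_congr rfl
    intro X _
    have h1 : (s * X < a ∧ (a : ℝ) ≤ s * θ * X) ↔ (u ≤ (X : ℝ) ∧ (X : ℝ) < v) := by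
      rw [hu, hv, div_le_iff₀ hsθ0, lt_div_iff₀ hs]
      constructor
      · rintro ⟨h1, h2⟩
        exact ⟨by linarith, by linarith⟩
      · rintro ⟨h1, h2⟩
        exact ⟨by linarith, by linarith⟩
    by_cases c : s * X < a ∧ (a : ℝ) ≤ s * θ * X
    · rw [if_pos c, if_pos (h1.1 c), mul_one]
    · rw [if_neg c, if_neg (fun h => c (h1.2 h)), mul_zero]
  rw [e1]
  have hu1 : 1 ≤ u := by
    rw [hu, le_div_iff₀ hsθ0]
    linarith
  have huv : u ≤ v := by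
    rw [hu, hv]
    apply div_le_div_of_nonneg_left ha0.le hs
    nlinarith
  have e2 : 1 / u - 1 / v = s * (θ - 1) * (1 / (a : ℝ)) := by
    rw [hu, hv]
    field_simp
  have e3 : 4 / u ^ 2 ≤ 4 * (1 / (a : ℝ) ^ 2) := by
    have h5 : (a : ℝ) ≤ u := by
      rw [hu, le_div_iff₀ hsθ0]
      nlinarith
    have h6 : 1 / u ^ 2 ≤ 1 / (a : ℝ) ^ 2 :=
      one_div_le_one_div_of_le (by positivity) (by nlinarith)
    have h7 : 4 / u ^ 2 = 4 * (1 / u ^ 2) := by ring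
    linarith
  have hp1 : 0 ≤ 4 * (1 / (a : ℝ) ^ 2) := by positivity
  have hp2 : 0 ≤ 3 / s * (1 / (N : ℝ)) := by positivity
  by_cases hvN : v ≤ N
  · have h1 := win u v N hu1 huv hvN
    rw [e2] at h1
    linarith
  · rw [not_le] at hvN
    have h1 := win_le u v N (by linarith : 0 < u)
    have h2 : 0 ≤ ∑ X ∈ (Icc 1 N).filter (fun X : ℕ => u ≤ (X : ℝ) ∧ (X : ℝ) < v),
        1 / (X : ℝ) ^ 2 := Finset.sum_nonneg (fun X _ => by positivity)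
    have h3 : 1 / (a : ℝ) ≤ 1 / s * (1 / (N : ℝ)) := by
      rw [hv, lt_div_iff₀ hs] at hvN
      rw [one_div_mul_one_div]
      apply one_div_le_one_div_of_le (by positivity)
      linarith
    have h4 : 2 / u = 2 * (s * θ) * (1 / (a : ℝ)) := by
      rw [hu]
      field_simp
    have h5 : 2 * (s * θ) * (1 / (a : ℝ)) ≤ 2 * (1 / (a : ℝ)) := by
      apply mul_le_mul_of_nonneg_right (by linarith) (by positivity)
    have h6 : s * (θ - 1) * (1 / (a : ℝ)) ≤ 1 * (1 / (a : ℝ)) := by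
      apply mul_le_mul_of_nonneg_right (by nlinarith) (by positivity)
    have h7 : 0 ≤ s * (θ - 1) * (1 / (a : ℝ)) := by
      have : 0 < θ - 1 := by linarith
      positivity
    have h8 : 3 / s * (1 / (N : ℝ)) = 3 * (1 / s * (1 / (N : ℝ))) := by ring
    have h9 : 0 < 1 / (a : ℝ) := by positivity
    rw [abs_le]
    constructor <;> linarith

open scoped Classical in
/-- the comparison for one `N` -/
theorem key (h2 : S_CORR) (C : ℝ) (hC : ∀ m M : ℕ, 1 ≤ m → m ≤ M →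
    ((((Icc 1 m) ×ˢ (Icc 1 M)).filter (fun p => ∃ n : ℕ, p.1 * p.2 = n ^ 2 + 1)).card : ℝ) ≤
    C * Real.sqrt (m * M)) (hC0 : 0 ≤ C) (A θ : ℝ) (K : ℕ) (hθ : 1 < θ) (hθ2 : θ ≤ 2)
    (hK : A ^ 2 * θ ≤ θ ^ K) (φ : ℝ → ℝ) (hφ : Rt A φ) (F : ℝ) (hF : ∀ r, |φ r| ≤ F)
    (η : ℝ) (hη : 0 ≤ η)
    (hu : ∀ x y : ℝ, 0 ≤ x → x ≤ 2 * A → 0 ≤ y → y ≤ 2 * A → |x - y| ≤ (θ - 1) * (2 * A) →
      |φ x - φ y| ≤ η) (j N : ℕ) (hN : 1 ≤ N) :
    A * (θ ^ K)⁻¹ * (θ - 1) *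
      |∑ p ∈ SP N, (lam p.1 : ℝ) ^ j * lam p.2 * (φ ((p.2 : ℝ) / p.1) / p.1)| ≤
      1 / 4 * ∑ k ∈ range K, F * |∑ X ∈ Icc 1 N, 1 / (X : ℝ) ^ 2 *
        AA j (A * (θ ^ K)⁻¹) (A * (θ ^ K)⁻¹ * θ) ((θ ^ K)⁻¹ * θ ^ k) ((θ ^ K)⁻¹ * θ ^ (k + 1)) X| +
      η * (A * (θ ^ K)⁻¹ * (θ - 1) * (C * Real.sqrt (2 * A) * (1 + Real.log N)) +
        (8 + 3 / (A * (θ ^ K)⁻¹)) * (C * Real.sqrt (2 * A))) +
      F * ((8 + 3 / (A * (θ ^ K)⁻¹)) * (C * Real.sqrt (2 * A))) +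
      A * (θ ^ K)⁻¹ * (θ - 1) * F := by
  have hA := hφ.one_lt
  have hA0 : 0 < A := by linarith
  have hθ0 : 0 < θ := by linarith
  have hθ1 : 0 < θ - 1 := by linarith
  have hF0 : 0 ≤ F := le_trans (abs_nonneg _) (hF 0)
  have hNp : (0 : ℝ) < N := by exact_mod_cast hN
  set s₀ : ℝ := (θ ^ K)⁻¹ with hs₀
  have hs0 : 0 < s₀ := by positivity
  have hsK : s₀ * θ ^ K = 1 := inv_mul_cancel₀ (by positivity)
  set s : ℝ := A * s₀ with hsdef
  have hs : 0 < s := by positivity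
  have hsθ : s * θ ≤ 1 := by
    have h5 : s₀ * (A ^ 2 * θ) ≤ s₀ * θ ^ K := mul_le_mul_of_nonneg_left hK hs0.le
    have h6 : A * (s * θ) ≤ 1 := by
      rw [hsdef]
      calc A * (A * s₀ * θ) = s₀ * (A ^ 2 * θ) := by ring
        _ ≤ 1 := by rw [← hsK]; exact h5
    have h7 : 0 < s * θ := by positivity
    nlinarith
  set C' : ℝ := C * Real.sqrt (2 * A) with hC'
  have hC'0 : 0 ≤ C' := by positivity
  set D : ℕ × ℕ → ℝ := fun p => (lam p.1 : ℝ) ^ j * lam p.2 with hD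
  have hD1 : ∀ p, |D p| = 1 := fun p => abs_D j p.1 p.2
  set r : ℕ × ℕ → ℝ := fun p => (p.2 : ℝ) / p.1 with hr
  set w : ℕ × ℕ → ℝ := fun p => ∑ X ∈ Icc 1 N, 1 / (X : ℝ) ^ 2 *
    (if s * X < p.1 ∧ (p.1 : ℝ) ≤ s * θ * X then 1 else 0) with hw
  set G : ℕ → ℕ × ℕ → ℝ := fun X p => ∑ k ∈ range K, φ (θ ^ k / A) *
    (if (s * X < p.1 ∧ (p.1 : ℝ) ≤ s * θ * X) ∧
      (s₀ * θ ^ k * X < p.2 ∧ (p.2 : ℝ) ≤ s₀ * θ ^ (k + 1) * X) then 1 else 0) with hG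
  set R := (SP N).filter (fun p => p ≠ (1, 1)) with hR
  set S := (SP N).filter (fun p => 1 / (2 * A) ≤ (p.2 : ℝ) / p.1 ∧ (p.2 : ℝ) / p.1 ≤ 2 * A) with hS
  -- the sum over the windows
  have b1 : ∑ k ∈ range K, φ (θ ^ k / A) * ∑ X ∈ Icc 1 N, 1 / (X : ℝ) ^ 2 *
        AA j s (s * θ) (s₀ * θ ^ k) (s₀ * θ ^ (k + 1)) X =
      4 * ∑ p ∈ R, D p * ∑ X ∈ Icc 1 N, 1 / (X : ℝ) ^ 2 * G X p := by
    have h3 : ∀ k ∈ range K, φ (θ ^ k / A) * ∑ X ∈ Icc 1 N, 1 / (X : ℝ) ^ 2 *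
        AA j s (s * θ) (s₀ * θ ^ k) (s₀ * θ ^ (k + 1)) X =
        ∑ p ∈ R, ∑ X ∈ Icc 1 N, 4 * (D p * (1 / (X : ℝ) ^ 2 * (φ (θ ^ k / A) *
          (if (s * X < p.1 ∧ (p.1 : ℝ) ≤ s * θ * X) ∧
          (s₀ * θ ^ k * X < p.2 ∧ (p.2 : ℝ) ≤ s₀ * θ ^ (k + 1) * X) then 1 else 0)))) := by
      intro k hk
      rw [mem_range] at hk
      have hk1 : s₀ * θ ^ (k + 1) ≤ 1 := by
        rw [← hsK]
        exact mul_le_mul_of_nonneg_left (pow_le_pow_right₀ hθ.le (by omega)) hs0.le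
      rw [Finset.sum_comm, Finset.mul_sum]
      apply Finset.sum_congr rfl
      intro X hX
      rw [mem_Icc] at hX
      rw [AA_gen h2 j s (s * θ) (s₀ * θ ^ k) (s₀ * θ ^ (k + 1)) hsθ hk1 X N hX.1 hX.2,
        Finset.mul_sum, Finset.mul_sum, Finset.mul_sum]
      apply Finset.sum_congr rfl
      intro p _
      simp only [hD]
      ring
    rw [Finset.sum_congr rfl h3, Finset.sum_comm, Finset.mul_sum]
    apply Finset.sum_congr rfl
    intro p _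
    rw [Finset.sum_comm, Finset.mul_sum, Finset.mul_sum]
    apply Finset.sum_congr rfl
    intro X _
    simp only [hG]
    rw [Finset.mul_sum, Finset.mul_sum, Finset.mul_sum]
  have b2 : |∑ p ∈ R, D p * ∑ X ∈ Icc 1 N, 1 / (X : ℝ) ^ 2 * G X p| ≤
      1 / 4 * ∑ k ∈ range K, F * |∑ X ∈ Icc 1 N, 1 / (X : ℝ) ^ 2 *
        AA j s (s * θ) (s₀ * θ ^ k) (s₀ * θ ^ (k + 1)) X| := by
    have h3 : |∑ k ∈ range K, φ (θ ^ k / A) * ∑ X ∈ Icc 1 N, 1 / (X : ℝ) ^ 2 *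
        AA j s (s * θ) (s₀ * θ ^ k) (s₀ * θ ^ (k + 1)) X| ≤
        ∑ k ∈ range K, F * |∑ X ∈ Icc 1 N, 1 / (X : ℝ) ^ 2 *
        AA j s (s * θ) (s₀ * θ ^ k) (s₀ * θ ^ (k + 1)) X| := by
      refine le_trans (Finset.abs_sum_le_sum_abs _ _) ?_
      apply Finset.sum_le_sum
      intro k _
      rw [abs_mul]
      exact mul_le_mul_of_nonneg_right (hF _) (abs_nonneg _)
    rw [b1, abs_mul, abs_of_pos (by norm_num : (0 : ℝ) < 4)] at h3
    linarith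
  -- the weights
  have hpos : ∀ p ∈ SP N, 1 ≤ p.1 ∧ p.1 ≤ N ∧ 1 ≤ p.2 := by
    intro p hp
    rw [mem_SP] at hp
    exact ⟨hp.1.1.1, hp.1.1.2, hp.1.2.1⟩
  have hRS : R ⊆ SP N := Finset.filter_subset _ _
  have hSS : S ⊆ SP N := Finset.filter_subset _ _
  have hw0 : ∀ p, 0 ≤ w p := by
    intro p
    apply Finset.sum_nonneg
    intro X _
    split_ifs <;> simp
  have hwb : ∀ p ∈ SP N, |w p - s * (θ - 1) * (1 / (p.1 : ℝ))| ≤
      4 * (1 / (p.1 : ℝ) ^ 2) + 3 / s * (1 / (N : ℝ)) := by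
    intro p hp
    exact w_bound s θ hs hθ hsθ p.1 N (hpos p hp).1 hN
  have b3 : |∑ p ∈ R, D p * ∑ X ∈ Icc 1 N, 1 / (X : ℝ) ^ 2 * G X p -
      ∑ p ∈ R, D p * (φ (r p) * w p)| ≤ η * ∑ p ∈ S, w p := by
    rw [← Finset.sum_sub_distrib]
    refine le_trans (Finset.abs_sum_le_sum_abs _ _) ?_
    have h3 : ∀ p ∈ R, |D p * ∑ X ∈ Icc 1 N, 1 / (X : ℝ) ^ 2 * G X p - D p * (φ (r p) * w p)| ≤
        (if 1 / (2 * A) ≤ (p.2 : ℝ) / p.1 ∧ (p.2 : ℝ) / p.1 ≤ 2 * A then η * w p else 0) := by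
      intro p hp
      rw [← mul_sub, abs_mul, hD1, one_mul]
      have h4 : (if 1 / (2 * A) ≤ (p.2 : ℝ) / p.1 ∧ (p.2 : ℝ) / p.1 ≤ 2 * A then η * w p else 0) =
          ∑ X ∈ Icc 1 N, 1 / (X : ℝ) ^ 2 * (η *
            (if (s * X < p.1 ∧ (p.1 : ℝ) ≤ s * θ * X) ∧
            (1 / (2 * A) ≤ (p.2 : ℝ) / p.1 ∧ (p.2 : ℝ) / p.1 ≤ 2 * A) then 1 else 0)) := by
        by_cases c : 1 / (2 * A) ≤ (p.2 : ℝ) / p.1 ∧ (p.2 : ℝ) / p.1 ≤ 2 * A
        · rw [if_pos c]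
          simp only [hw]
          rw [Finset.mul_sum]
          apply Finset.sum_congr rfl
          intro X _
          by_cases c2 : s * X < p.1 ∧ (p.1 : ℝ) ≤ s * θ * X
          · rw [if_pos c2, if_pos ⟨c2, c⟩]
            ring
          · rw [if_neg c2, if_neg (fun h => c2 h.1)]
            ring
        · rw [if_neg c]
          symm
          apply Finset.sum_eq_zero
          intro X _
          rw [if_neg (fun h => c h.2)]
          ring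
      rw [h4]
      simp only [hw]
      rw [Finset.mul_sum, ← Finset.sum_sub_distrib]
      refine le_trans (Finset.abs_sum_le_sum_abs _ _) ?_
      apply Finset.sum_le_sum
      intro X hX
      rw [mem_Icc] at hX
      have h5 := pt A θ K hθ hθ2 hK φ hφ η hη hu p.1 p.2 X (hpos p (hRS hp)).1
        (hpos p (hRS hp)).2.2 hX.1
      have h6 : 1 / (X : ℝ) ^ 2 * G X p - φ (r p) * (1 / (X : ℝ) ^ 2 *
          (if s * X < p.1 ∧ (p.1 : ℝ) ≤ s * θ * X then 1 else 0)) =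
          1 / (X : ℝ) ^ 2 * (G X p - φ (r p) *
          (if s * X < p.1 ∧ (p.1 : ℝ) ≤ s * θ * X then 1 else 0)) := by ring
      rw [h6, abs_mul, abs_of_nonneg (by positivity : (0 : ℝ) ≤ 1 / (X : ℝ) ^ 2)]
      exact mul_le_mul_of_nonneg_left h5 (by positivity)
    refine le_trans (Finset.sum_le_sum h3) ?_
    refine le_trans (Finset.sum_le_sum_of_subset_of_nonneg hRS (fun p _ _ => ?_)) ?_
    · split_ifs
      · exact mul_nonneg hη (hw0 p)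
      · exact le_rfl
    · rw [← Finset.sum_filter, ← hS, ← Finset.mul_sum]
  have b4 : |∑ p ∈ R, D p * (φ (r p) * w p) -
      ∑ p ∈ R, D p * (φ (r p) * (s * (θ - 1) * (1 / (p.1 : ℝ))))| ≤
      F * ∑ p ∈ S, (4 * (1 / (p.1 : ℝ) ^ 2) + 3 / s * (1 / (N : ℝ))) := by
    rw [← Finset.sum_sub_distrib]
    refine le_trans (Finset.abs_sum_le_sum_abs _ _) ?_
    have h3 : ∀ p ∈ R, |D p * (φ (r p) * w p) -
        D p * (φ (r p) * (s * (θ - 1) * (1 / (p.1 : ℝ))))| ≤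
        (if 1 / (2 * A) ≤ (p.2 : ℝ) / p.1 ∧ (p.2 : ℝ) / p.1 ≤ 2 * A then
          F * (4 * (1 / (p.1 : ℝ) ^ 2) + 3 / s * (1 / (N : ℝ))) else 0) := by
      intro p hp
      rw [← mul_sub, abs_mul, hD1, one_mul, ← mul_sub, abs_mul]
      by_cases c : φ (r p) = 0
      · rw [c, abs_zero, zero_mul]
        split_ifs
        · positivity
        · exact le_rfl
      · obtain ⟨g1, g2⟩ := hφ.supp _ c
        have g3 : 1 / (2 * A) ≤ 1 / A := one_div_le_one_div_of_le hA0 (by linarith)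
        rw [if_pos ⟨le_trans g3 g1, le_trans g2 (by linarith)⟩]
        exact mul_le_mul (hF _) (hwb p (hRS hp)) (abs_nonneg _) hF0
    refine le_trans (Finset.sum_le_sum h3) ?_
    refine le_trans (Finset.sum_le_sum_of_subset_of_nonneg hRS (fun p _ _ => ?_)) ?_
    · split_ifs
      · positivity
      · exact le_rfl
    · rw [← Finset.sum_filter, ← hS, ← Finset.mul_sum]
  have b5 : |∑ p ∈ SP N, D p * (φ (r p) * (s * (θ - 1) * (1 / (p.1 : ℝ)))) -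
      ∑ p ∈ R, D p * (φ (r p) * (s * (θ - 1) * (1 / (p.1 : ℝ))))| ≤ s * (θ - 1) * F := by
    have e1 := Finset.sum_filter_add_sum_filter_not (SP N) (fun p : ℕ × ℕ => p ≠ (1, 1))
      (fun p : ℕ × ℕ => D p * (φ (r p) * (s * (θ - 1) * (1 / (p.1 : ℝ)))))
    rw [← e1, ← hR, add_sub_cancel_left]
    have e2 : (SP N).filter (fun p : ℕ × ℕ => ¬ (p ≠ (1, 1))) ⊆ {(1, 1)} := by
      intro p hp
      rw [mem_filter, not_not] at hp
      exact mem_singleton.2 hp.2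
    refine le_trans (Finset.abs_sum_le_sum_abs _ _) ?_
    refine le_trans (Finset.sum_le_sum_of_subset_of_nonneg e2 (fun p _ _ => abs_nonneg _)) ?_
    rw [Finset.sum_singleton, abs_mul, hD1, one_mul, abs_mul]
    have e3 : |s * (θ - 1) * (1 / (((1 : ℕ × ℕ).1 : ℕ) : ℝ))| = s * (θ - 1) := by
      rw [abs_of_nonneg]
      · simp
      · simp only [Prod.fst_one, Nat.cast_one, div_one, mul_one]
        positivity
    have e4 : |s * (θ - 1) * (1 / ((((1, 1) : ℕ × ℕ).1 : ℕ) : ℝ))| = s * (θ - 1) := e3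
    rw [e4, mul_comm]
    exact mul_le_mul_of_nonneg_left (hF _) (by positivity)
  -- the counting sums
  have hMS : ∀ p ∈ S, 1 ≤ p.1 ∧ p.1 ≤ N := fun p hp =>
    ⟨(hpos p (hSS hp)).1, (hpos p (hSS hp)).2.1⟩
  have hcnt : ∀ X : ℕ, 1 ≤ X → ((S.filter (fun p => p.1 ≤ X)).card : ℝ) ≤ C' * X := by
    intro X hX
    exact cnt_ratio C hC hC0 (2 * A) (by linarith) N X hX
  have a1 : ∀ n : ℕ, 1 ≤ n → 1 / ((n + 1 : ℕ) : ℝ) ≤ 1 / (n : ℝ) := by
    intro n hn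
    have : (0 : ℝ) < n := by exact_mod_cast hn
    push_cast
    exact one_div_le_one_div_of_le this (by linarith)
  have a2 : ∀ n : ℕ, 1 ≤ n → 1 / ((n + 1 : ℕ) : ℝ) ^ 2 ≤ 1 / (n : ℝ) ^ 2 := by
    intro n hn
    have : (0 : ℝ) < n := by exact_mod_cast hn
    push_cast
    exact one_div_le_one_div_of_le (by positivity) (by nlinarith)
  have s1 : ∑ p ∈ S, 1 / (p.1 : ℝ) ^ 2 ≤ C' * 2 := by
    refine le_trans (cnt_sum S (fun p : ℕ × ℕ => p.1) (fun n => 1 / (n : ℝ) ^ 2) C' N hN a2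
      (fun n _ => by positivity) hMS hcnt) ?_
    exact mul_le_mul_of_nonneg_left (sum_inv_sq_le N) hC'0
  have s2 : ∑ p ∈ S, 1 / (p.1 : ℝ) ≤ C' * (1 + Real.log N) := by
    refine le_trans (cnt_sum S (fun p : ℕ × ℕ => p.1) (fun n => 1 / (n : ℝ)) C' N hN a1
      (fun n _ => by positivity) hMS hcnt) ?_
    exact mul_le_mul_of_nonneg_left (sum_inv_le N) hC'0
  have s3 : ∑ p ∈ S, 3 / s * (1 / (N : ℝ)) ≤ 3 / s * C' := by
    rw [Finset.sum_const, nsmul_eq_mul]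
    have h3 := hcnt N hN
    have e : S.filter (fun p => p.1 ≤ N) = S := by
      rw [Finset.filter_eq_self]
      exact fun p hp => (hMS p hp).2
    rw [e] at h3
    have h4 : (S.card : ℝ) * (3 / s * (1 / (N : ℝ))) = 3 / s * ((S.card : ℝ) / N) := by ring
    rw [h4]
    apply mul_le_mul_of_nonneg_left _ (by positivity)
    rw [div_le_iff₀ hNp]
    exact h3
  have s4 : ∑ p ∈ S, (4 * (1 / (p.1 : ℝ) ^ 2) + 3 / s * (1 / (N : ℝ))) ≤ (8 + 3 / s) * C' := by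
    rw [Finset.sum_add_distrib, ← Finset.mul_sum]
    linarith
  have s5 : ∑ p ∈ S, w p ≤ s * (θ - 1) * (C' * (1 + Real.log N)) + (8 + 3 / s) * C' := by
    have h3 : ∀ p ∈ S, w p ≤ s * (θ - 1) * (1 / (p.1 : ℝ)) +
        (4 * (1 / (p.1 : ℝ) ^ 2) + 3 / s * (1 / (N : ℝ))) := by
      intro p hp
      have h4 := (abs_le.1 (hwb p (hSS hp))).2
      linarith
    refine le_trans (Finset.sum_le_sum h3) ?_
    rw [Finset.sum_add_distrib, ← Finset.mul_sum]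
    have h5 : s * (θ - 1) * ∑ p ∈ S, 1 / (p.1 : ℝ) ≤ s * (θ - 1) * (C' * (1 + Real.log N)) :=
      mul_le_mul_of_nonneg_left s2 (by positivity)
    linarith
  -- the end
  have b6 : s * (θ - 1) * |∑ p ∈ SP N, (lam p.1 : ℝ) ^ j * lam p.2 *
      (φ ((p.2 : ℝ) / p.1) / p.1)| =
      |∑ p ∈ SP N, D p * (φ (r p) * (s * (θ - 1) * (1 / (p.1 : ℝ))))| := by
    have h3 : ∑ p ∈ SP N, D p * (φ (r p) * (s * (θ - 1) * (1 / (p.1 : ℝ)))) =
        s * (θ - 1) * ∑ p ∈ SP N, (lam p.1 : ℝ) ^ j * lam p.2 *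
      (φ ((p.2 : ℝ) / p.1) / p.1) := by
      rw [Finset.mul_sum]
      apply Finset.sum_congr rfl
      intro p _
      simp only [hD, hr]
      ring
    rw [h3, abs_mul, abs_of_nonneg (by positivity : 0 ≤ s * (θ - 1))]
  rw [b6]
  have t3 : η * ∑ p ∈ S, w p ≤ η * (s * (θ - 1) * (C' * (1 + Real.log N)) + (8 + 3 / s) * C') :=
    mul_le_mul_of_nonneg_left s5 hη
  have t4 : F * ∑ p ∈ S, (4 * (1 / (p.1 : ℝ) ^ 2) + 3 / s * (1 / (N : ℝ))) ≤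
      F * ((8 + 3 / s) * C') := mul_le_mul_of_nonneg_left s4 hF0
  have c2 := abs_le.1 b2
  have c3 := abs_le.1 b3
  have c4 := abs_le.1 b4
  have c5 := abs_le.1 b5
  rw [abs_le]
  constructor
  · linarith [c2.1, c2.2, c3.1, c3.2, c4.1, c4.2, c5.1, c5.2]
  · linarith [c2.1, c2.2, c3.1, c3.2, c4.1, c4.2, c5.1, c5.2]

/-- T8-WT -/
theorem wt (h1 : S_MAIN) (h2 : S_CORR) (h3 : S_SCNT) : S_WT := by
  classical
  intro j A φ hφ
  have hA := hφ.one_lt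
  have hA0 : 0 < A := by linarith
  obtain ⟨C, hC⟩ := h3
  have hC0 : 0 ≤ C := by
    have h := hC 1 1 le_rfl le_rfl
    have h4 : (0 : ℝ) ≤ C * Real.sqrt ((1 : ℕ) * (1 : ℕ)) := le_trans (Nat.cast_nonneg _) h
    simpa using h4
  obtain ⟨F, hF⟩ : ∃ F : ℝ, ∀ r, |φ r| ≤ F := by
    obtain ⟨F, hF⟩ := isCompact_Icc.exists_bound_of_continuousOn
      (s := Set.Icc (1 / A) A) hφ.cont.continuousOn
    refine ⟨max F 0, fun r => ?_⟩
    by_cases c : φ r = 0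
    · rw [c, abs_zero]
      exact le_max_right _ _
    · exact le_trans (hF r (hφ.supp r c)) (le_max_left _ _)
  have hF0 : 0 ≤ F := le_trans (abs_nonneg _) (hF 0)
  rw [Metric.tendsto_atTop]
  intro ε hε
  set C' : ℝ := C * Real.sqrt (2 * A) with hC'
  have hC'0 : 0 ≤ C' := by positivity
  set η : ℝ := ε / (8 * (C' + 1)) with hηdef
  have hη : 0 < η := by positivity
  have hηC : η * C' ≤ ε / 8 := by
    rw [hηdef, div_mul_eq_mul_div, div_le_iff₀ (by positivity)]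
    nlinarith
  have huc : UniformContinuousOn φ (Set.Icc 0 (2 * A)) :=
    isCompact_Icc.uniformContinuousOn_of_continuous hφ.cont.continuousOn
  rw [Metric.uniformContinuousOn_iff] at huc
  obtain ⟨δ, hδ, hδu⟩ := huc η hη
  set θ : ℝ := 1 + min 1 (δ / (4 * A)) with hθdef
  have hm : 0 < min 1 (δ / (4 * A)) := lt_min one_pos (by positivity)
  have hθ : 1 < θ := by linarith
  have hθ2 : θ ≤ 2 := by
    have := min_le_left 1 (δ / (4 * A))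
    linarith
  have hθδ : (θ - 1) * (2 * A) < δ := by
    have h4 : θ - 1 ≤ δ / (4 * A) := by
      have := min_le_right 1 (δ / (4 * A))
      linarith
    have h5 : (θ - 1) * (2 * A) ≤ δ / (4 * A) * (2 * A) :=
      mul_le_mul_of_nonneg_right h4 (by positivity)
    have h6 : δ / (4 * A) * (2 * A) = δ / 2 := by
      field_simp
      ring
    linarith
  have hu : ∀ x y : ℝ, 0 ≤ x → x ≤ 2 * A → 0 ≤ y → y ≤ 2 * A → |x - y| ≤ (θ - 1) * (2 * A) →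
      |φ x - φ y| ≤ η := by
    intro x y hx1 hx2 hy1 hy2 hxy
    have h4 := hδu x ⟨hx1, hx2⟩ y ⟨hy1, hy2⟩ (by
      rw [Real.dist_eq]
      linarith)
    rw [Real.dist_eq] at h4
    exact h4.le
  obtain ⟨K, hK⟩ := pow_unbounded_of_one_lt (A ^ 2 * θ) hθ
  have hθ0 : 0 < θ := by linarith
  have hθ1 : 0 < θ - 1 := by linarith
  set s₀ : ℝ := (θ ^ K)⁻¹ with hs₀
  have hs0 : 0 < s₀ := by positivity
  have hsK : s₀ * θ ^ K = 1 := inv_mul_cancel₀ (by positivity)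
  set s : ℝ := A * s₀ with hsdef
  have hs : 0 < s := by positivity
  have hsθ : s * θ ≤ 1 := by
    have h5 : s₀ * (A ^ 2 * θ) ≤ s₀ * θ ^ K := mul_le_mul_of_nonneg_left hK.le hs0.le
    have h6 : A * (s * θ) ≤ 1 := by
      rw [hsdef]
      calc A * (A * s₀ * θ) = s₀ * (A ^ 2 * θ) := by ring
        _ ≤ 1 := by rw [← hsK]; exact h5
    have h7 : 0 < s * θ := by positivity
    nlinarith
  set c₀ : ℝ := s * (θ - 1) with hc₀
  have hc0 : 0 < c₀ := by positivity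
  set e₁ : ℝ := c₀ * ε / (K * F + 1) with he₁
  have he1 : 0 < e₁ := by positivity
  have hev : ∀ᶠ N : ℕ in atTop, ∀ k ∈ range K, |∑ X ∈ Icc 1 N, 1 / (X : ℝ) ^ 2 *
      AA j s (s * θ) (s₀ * θ ^ k) (s₀ * θ ^ (k + 1)) X| ≤ e₁ * Real.log N := by
    rw [Finset.eventually_all]
    intro k hk
    rw [mem_range] at hk
    obtain ⟨N₀, hN₀⟩ := h1 j s (s * θ) (s₀ * θ ^ k) (s₀ * θ ^ (k + 1)) hs
      (by nlinarith) hsθ (by positivity)
      (mul_lt_mul_of_pos_left (pow_lt_pow_right₀ hθ (Nat.lt_succ_self k)) hs0)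
      (by
        rw [← hsK]
        exact mul_le_mul_of_nonneg_left (pow_le_pow_right₀ hθ.le (by omega)) hs0.le)
      e₁ he1
    exact eventually_atTop.2 ⟨N₀, hN₀⟩
  set M₀ : ℝ := η * (c₀ * C' + (8 + 3 / s) * C') + F * ((8 + 3 / s) * C') + c₀ * F with hM₀
  have hlim : Tendsto (fun N : ℕ => Real.log N) atTop atTop :=
    Real.tendsto_log_atTop.comp tendsto_natCast_atTop_atTop
  have hev2 := hlim.eventually_gt_atTop (M₀ * 4 / (c₀ * ε))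
  obtain ⟨N₁, hN₁⟩ := eventually_atTop.1 (hev.and (hev2.and (eventually_ge_atTop 2)))
  refine ⟨N₁, fun N hN => ?_⟩
  obtain ⟨g1, g2, g3⟩ := hN₁ N hN
  have hl : 0 < Real.log N := Real.log_pos (by exact_mod_cast g3)
  have g4 := key h2 C hC hC0 A θ K hθ hθ2 hK.le φ hφ F hF η hη.le hu j N (by omega)
  rw [dist_zero_right, Real.norm_eq_abs, abs_div, abs_of_pos hl, div_lt_iff₀ hl]
  have g5 : ∑ k ∈ range K, F * |∑ X ∈ Icc 1 N, 1 / (X : ℝ) ^ 2 *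
      AA j s (s * θ) (s₀ * θ ^ k) (s₀ * θ ^ (k + 1)) X| ≤ c₀ * ε * Real.log N := by
    have h4 : ∀ k ∈ range K, F * |∑ X ∈ Icc 1 N, 1 / (X : ℝ) ^ 2 *
      AA j s (s * θ) (s₀ * θ ^ k) (s₀ * θ ^ (k + 1)) X| ≤ F * (e₁ * Real.log N) :=
      fun k hk => mul_le_mul_of_nonneg_left (g1 k hk) hF0
    refine le_trans (Finset.sum_le_sum h4) ?_
    rw [Finset.sum_const, card_range, nsmul_eq_mul]
    have h5 : (K : ℝ) * F * e₁ ≤ c₀ * ε := by
      rw [he₁, mul_div_assoc', div_le_iff₀ (by positivity)]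
      have : 0 < c₀ * ε := by positivity
      nlinarith
    calc (K : ℝ) * (F * (e₁ * Real.log N)) = (K * F * e₁) * Real.log N := by ring
      _ ≤ _ := mul_le_mul_of_nonneg_right h5 hl.le
  rw [div_lt_iff₀ (by positivity)] at g2
  have g6 : η * (c₀ * (C' * (1 + Real.log N)) + (8 + 3 / s) * C') =
      η * (c₀ * C' + (8 + 3 / s) * C') + c₀ * Real.log N * (η * C') := by ring
  have g7 : c₀ * Real.log N * (η * C') ≤ c₀ * Real.log N * (ε / 8) :=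
    mul_le_mul_of_nonneg_left hηC (by positivity)
  have g8 : c₀ * |∑ p ∈ SP N, (lam p.1 : ℝ) ^ j * lam p.2 * (φ ((p.2 : ℝ) / p.1) / p.1)| <
      c₀ * (ε * Real.log N) := by
    have h4 : 0 < c₀ * ε * Real.log N := by positivity
    have h5 : 1 / 4 * ∑ k ∈ range K, F * |∑ X ∈ Icc 1 N, 1 / (X : ℝ) ^ 2 *
      AA j s (s * θ) (s₀ * θ ^ k) (s₀ * θ ^ (k + 1)) X| ≤ 1 / 4 * (c₀ * ε * Real.log N) :=
      mul_le_mul_of_nonneg_left g5 (by norm_num)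
    refine lt_of_le_of_lt g4 ?_
    rw [g6]
    have h6 : c₀ * (ε * Real.log N) = c₀ * ε * Real.log N := by ring
    have h7 : c₀ * Real.log N * (ε / 8) = 1 / 8 * (c₀ * ε * Real.log N) := by ring
    rw [h6]
    rw [h7] at g7
    linarith
  exact lt_of_mul_lt_mul_left g8 hc0.le

end Pool.Agent.W412.T8
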